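import Pool.Agent.J4H71.PC.Ell

/-!
# The semialgebraic form of Mazur's conjecture for conditions on power classes, and for fibre
# products of power covers whose curves have genus at most one

Two rational numbers are in the same `n`-th power class if they differ by the `n`-th power of a
nonzero rational number (`0` is a class of its own).

A *block* consists of finitely many polynomials `h_r` in some variables, with exponents `n_r`, and
a set `N` of rational points `z`. It is *admissible* if `N` is a finite union of sets `N_α` with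
semialgebraic sets `W_α ⊇ N_α` such that each `h_r` vanishes identically or nowhere on `W_α`, and
for each `z₀ ∈ N_α` the closure of the set of all `z ∈ N_α`, for which `h_r(z)` and `h_r(z₀)` are
in the same `n_r`-th power class for all `r`, meets `W_α` in a relatively open subset of `W_α`.

(1) The principle: let `z_i ∈ N_i` be points in finitely many admissible blocks, `T` an arbitrary
union of classes of tuples of rational numbers, and let finitely many equations
`c_{l 0}(z) + ∑_j c_{l j}(z) u_{l j} ^ {s_l} = 0` be given, where `s_l = 2`, or there is at most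
one `j`, and `c_{l j}(z) = a_{l j} ∏_{i,r} h_{i r}(z_i) ^ {e_{l j i r}}`, `s_l ∣ n_{i r} e_{l j i r}`.
The closure of the set of all `(z, u)` such that these equations are satisfied and the tuple of all
`h_{i r}(z_i)` is in `T` is semialgebraic over `ℚ`.

(2) The line `ℚ`, with all its rational points, is an admissible block for functions generated
(up to constants and powers) by one of the following systems of pairs `(n, F)` of an exponent and a
polynomial; here `L_i` are linear forms `a_i x + b_i`, pairwise linearly independent (so `L_i = 1`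
is allowed):
* `(n, L₁ L₂^{n - 1})` for an arbitrary `n`;
* `(2, q)` with `q ∣ F`, `F` separable of degree at most four, `deg q` even if `deg F = 4`;
* `(3, F)`, `F` separable of degree two or three;
* `(3, L₁ L₃²)`, `(3, L₂ L₃²)`;
* `(4, q L²)`, where `q` is a nondegenerate binary quadratic form in `(x, 1)`, which does not
  vanish at the zero of `L`;
* `(4, L₁ L₂ L₃²)`, `(2, L₁ L₃)`;
* `(6, L₁ L₂² L₃³)`.
(The curves `c w^n = F(x)` given by these systems are the geometrically irreducible cyclic covers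
of the line of genus at most one; the systems with several pairs give the abelian covers of genus
at most one.)

(3) Consider the affine variety `V` of the `(x₁, …, x_n, u)` with

  `A_{l 0}(x) + ∑_j A_{l j}(x) u_{l j} ^ {s_l} = 0`,   `l = 1, …, k`,

where `s_l = 2`, or there is at most one `j`, and each coefficient is a product of functions
`A_{l j i}(x_i)` which are generated by a system (2) for `x_i` with the exponent `s_l`. The closure
of the set of all rational points of `V` is semialgebraic over `ℚ`.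

(4) The same holds for the closure of the set of the values of rational functions on `V`.

(5), (6) The same holds for all rational points of the elliptic fibrations `y² = z³ + B(x)` and
`y² = z³ + B(x) z`, where `B(x) = ∏ A_i(x_i)` with functions `A_i` generated by a system (2) for
`x_i` with the exponent six, or four.

Examples of (3), with separable `f`, `g`: the surfaces `w³ = f(x) g(y)` with `deg f, deg g ≤ 3`,
`w⁴ = f(x) g(y)` with `deg f, deg g ≤ 2`, `w⁶ = x² (1 - x) y² (1 - y)` (for the maximal degrees, K3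
surfaces with an automorphism of order 3, 4, 6), their analogues in all dimensions (quotients of
products of elliptic curves), and systems of such equations; (5) contains e.g.
`y² = z³ + a f(s)³ g(t)²` with `deg f ≤ 4`, `deg g ≤ 3`.
-/

set_option autoImplicit false

namespace Pool.Agent.Results.MP_42de19_nt.PowerClasses

open MvPolynomial Pool.Agent.TH729.SQ Pool.Agent.H581R2 Pool.Agent.J4H71.SC Pool.Agent.J4H71.PC
  Topology

/-- Semialgebraic sets defined over `ℚ`: the finite unions of sets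
`{p = 0, q₁ > 0, …, q_k > 0}`, where `p` and the `qᵢ` are polynomials with rational
coefficients. -/
def Semialgebraic {ι : Type} (S : Set (ι → ℝ)) : Prop :=
  ∃ (m : ℕ) (P : Fin m → MvPolynomial ι ℚ) (G : Fin m → Finset (MvPolynomial ι ℚ)),
    S = {x : ι → ℝ | ∃ j : Fin m, (aeval x (P j) : ℝ) = 0 ∧ ∀ g ∈ G j, (0 : ℝ) < aeval x g}

/-- The closure of a set of rational points in the set of the real points. -/
def realClosure {ι : Type} (D : Set (ι → ℚ)) : Set (ι → ℝ) :=
  closure {x : ι → ℝ | ∃ z ∈ D, x = fun i => (z i : ℝ)}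

/-- The same `n`-th power class. -/
def SameClass (n : ℕ) (a b : ℚ) : Prop := ∃ r : ℚ, r ≠ 0 ∧ b = r ^ n * a

/-- The points of `N` at which all the functions `h r` have the same `n r`-th power classes as at
`z₀`. -/
def likePoint {κ R : Type} (n : R → ℕ) (h : R → MvPolynomial κ ℚ) (N : Set (κ → ℚ)) (z₀ : κ → ℚ) :
    Set (κ → ℚ) :=
  {z | z ∈ N ∧ ∀ r, SameClass (n r) (eval z₀ (h r)) (eval z (h r))}

/-- Admissible blocks. -/
def Admissible {κ R : Type} (n : R → ℕ) (h : R → MvPolynomial κ ℚ) (N : Set (κ → ℚ)) : Prop :=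
  ∃ (A : Type) (_ : Finite A) (N' : A → Set (κ → ℚ)) (W : A → Set (κ → ℝ)),
    N = ⋃ α, N' α ∧ ∀ α, Semialgebraic (W α) ∧ (∀ z ∈ N' α, (fun i => (z i : ℝ)) ∈ W α) ∧
      (∀ r, (∀ x ∈ W α, (aeval x (h r) : ℝ) ≠ 0) ∨ (∀ x ∈ W α, (aeval x (h r) : ℝ) = 0)) ∧
      ∀ z₀ ∈ N' α, ∀ x ∈ W α, x ∈ realClosure (likePoint n h (N' α) z₀) →
        realClosure (likePoint n h (N' α) z₀) ∈ 𝓝[W α] x

/-- The value of the monomial `a ∏ g_{i r} ^ {e_{i r}}`. -/
def monomial {ι : Type} [Fintype ι] {R : ι → Type} [∀ i, Fintype (R i)] (a : ℚ)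
    (e : ∀ i, R i → ℕ) (g : ∀ i, R i → ℚ) : ℚ := a * ∏ i, ∏ r, g i r ^ e i r

/-- The rational points `(z, u)` as in (1); `w (inl ⟨i, ·⟩)` is `z_i`, and `w (inr ⟨l, j⟩)` is
`u_{l j}`. The coefficient `c_{l 0}` has the index `none`. -/
def points {ι Λ : Type} {κ R : ι → Type} {m : Λ → ℕ} [Fintype ι] [∀ i, Fintype (R i)]
    (h : ∀ i, R i → MvPolynomial (κ i) ℚ) (N : ∀ i, Set (κ i → ℚ))
    (T : Set (∀ i, R i → ℚ)) (s : Λ → ℕ) (a : ∀ l, Option (Fin (m l)) → ℚ)
    (e : ∀ l, Option (Fin (m l)) → ∀ i, R i → ℕ) :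
    Set ((Σ i, κ i) ⊕ (Σ l, Fin (m l)) → ℚ) :=
  {w | (∀ i, (fun c => w (Sum.inl ⟨i, c⟩)) ∈ N i) ∧
    (fun i r => eval (fun c => w (Sum.inl ⟨i, c⟩)) (h i r)) ∈ T ∧
    ∀ l, monomial (a l none) (e l none)
        (fun i r => eval (fun c => w (Sum.inl ⟨i, c⟩)) (h i r)) +
      ∑ j, monomial (a l (some j)) (e l (some j))
        (fun i r => eval (fun c => w (Sum.inl ⟨i, c⟩)) (h i r)) * w (Sum.inr ⟨l, j⟩) ^ s l = 0}

/-- The linear form `a x + b`. -/
noncomputable def linear (a b : ℚ) : Polynomial ℚ := Polynomial.C a * Polynomial.X + Polynomial.C b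

/-- The linear forms `a_i x + b_i` are pairwise independent. -/
def Independent {r : ℕ} (a b : Fin r → ℚ) : Prop := ∀ i j, i ≠ j → a i * b j - b i * a j ≠ 0

/-- The systems of pairs of an exponent and a polynomial in (2). -/
def System (S : Set (ℕ × Polynomial ℚ)) : Prop :=
  (∃ (n : ℕ) (a b : Fin 2 → ℚ), n ≠ 0 ∧ Independent a b ∧
    S = {(n, linear (a 0) (b 0) * linear (a 1) (b 1) ^ (n - 1))}) ∨
  (∃ F : Polynomial ℚ, F.Separable ∧ F.natDegree ≤ 4 ∧
    S = {x | x.1 = 2 ∧ x.2 ∣ F ∧ (F.natDegree ≤ 3 ∨ Even x.2.natDegree)}) ∨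
  (∃ F : Polynomial ℚ, F.Separable ∧ (F.natDegree = 2 ∨ F.natDegree = 3) ∧ S = {(3, F)}) ∨
  (∃ a b : Fin 3 → ℚ, Independent a b ∧
    S = {(3, linear (a 0) (b 0) * linear (a 2) (b 2) ^ 2),
      (3, linear (a 1) (b 1) * linear (a 2) (b 2) ^ 2)}) ∨
  (∃ q₀ q₁ q₂ a b : ℚ, q₁ ^ 2 - 4 * q₀ * q₂ ≠ 0 ∧ q₂ * b ^ 2 - q₁ * a * b + q₀ * a ^ 2 ≠ 0 ∧
    S = {(4, (Polynomial.C q₂ * Polynomial.X ^ 2 + Polynomial.C q₁ * Polynomial.X +
      Polynomial.C q₀) * linear a b ^ 2)}) ∨
  (∃ a b : Fin 3 → ℚ, Independent a b ∧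
    S = {(4, linear (a 0) (b 0) * linear (a 1) (b 1) * linear (a 2) (b 2) ^ 2),
      (2, linear (a 0) (b 0) * linear (a 2) (b 2))}) ∨
  (∃ a b : Fin 3 → ℚ, Independent a b ∧
    S = {(6, linear (a 0) (b 0) * linear (a 1) (b 1) ^ 2 * linear (a 2) (b 2) ^ 3)})

/-- The polynomial `p` is generated by the system `S` with the exponent `s`:
`p = c (g / g₁)^s ∏_j F_j^{e_j}` with `(n_j, F_j) ∈ S` and `s ∣ n_j e_j`. The constant `c` and the
polynomials `g`, `g₁ ≠ 0` are arbitrary. -/
def Generated (S : Set (ℕ × Polynomial ℚ)) (s : ℕ) (p : Polynomial ℚ) : Prop :=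
  ∃ (m : ℕ) (f : Fin m → ℕ × Polynomial ℚ) (e : Fin m → ℕ) (c : ℚ) (g g₁ : Polynomial ℚ),
    g₁ ≠ 0 ∧ (∀ j, f j ∈ S ∧ s ∣ (f j).1 * e j) ∧
    p * g₁ ^ s = Polynomial.C c * g ^ s * ∏ j, (f j).2 ^ e j

/-- A polynomial in one variable. -/
noncomputable def inOneVariable (p : Polynomial ℚ) : MvPolynomial (Fin 1) ℚ :=
  Polynomial.aeval (X 0 : MvPolynomial (Fin 1) ℚ) p

/-- The rational points of the affine variety
`A_{l 0}(x) + ∑_j A_{l j}(x) u_{l j} ^ {s_l} = 0`, `l = 1, …, k`, where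
`A_{l 0}(x) = ∏_i A l none i (x_i)` and `A_{l j}(x) = ∏_i A l (some j) i (x_i)`. The coordinate
`w (inl i)` is `x_i`, and `w (inr ⟨l, j⟩)` is `u_{l j}`. -/
def variety {n k : ℕ} {m : Fin k → ℕ} (s : Fin k → ℕ)
    (A : ∀ l : Fin k, Option (Fin (m l)) → Fin n → Polynomial ℚ) :
    Set ((Fin n ⊕ Σ l, Fin (m l)) → ℚ) :=
  {w | ∀ l, (∏ i, (A l none i).eval (w (Sum.inl i))) +
    ∑ j, (∏ i, (A l (some j) i).eval (w (Sum.inl i))) * w (Sum.inr ⟨l, j⟩) ^ s l = 0}

lemma admissible_iff {κ R : Type} [Finite κ] (n : R → ℕ) (h : R → MvPolynomial κ ℚ)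
    (N : Set (κ → ℚ)) : Admissible n h N ↔ Adm n h N := by
  constructor
  · rintro ⟨A, hA, N', W, hN, hW⟩
    exact ⟨A, hA, N', W, hN, fun α => ⟨SA.of_classical (hW α).1, (hW α).2.1, (hW α).2.2.1,
      (hW α).2.2.2⟩⟩
  · rintro ⟨A, hA, N', W, hN, hW⟩
    exact ⟨A, hA, N', W, hN, fun α => ⟨SA.classical (hW α).sa, (hW α).sub, (hW α).sign,
      (hW α).opn⟩⟩

lemma system_lgs {S : Set (ℕ × Polynomial ℚ)} (h : System S) : LGS S := by
  rcases h with ⟨n, a, b, hn, hab, rfl⟩ | ⟨F, hF, hd, rfl⟩ | ⟨F, hF, hd, rfl⟩ | ⟨a, b, hab, rfl⟩ |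
    ⟨q₀, q₁, q₂, a, b, h1, h2, rfl⟩ | ⟨a, b, hab, rfl⟩ | ⟨a, b, hab, rfl⟩
  · exact lgs_zero hn (hab 0 1 (by decide))
  · exact lgs_two hF hd
  · exact lgs_three hF hd
  · exact lgs_three_split (hab 0 1 (by decide)) (hab 0 2 (by decide)) (hab 1 2 (by decide))
  · exact lgs_four h1 h2
  · exact lgs_four_split (hab 0 1 (by decide)) (hab 0 2 (by decide)) (hab 1 2 (by decide))
  · exact lgs_six (hab 0 1 (by decide)) (hab 0 2 (by decide)) (hab 1 2 (by decide))

/-- **Power classes.** -/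
theorem result :
    -- (1) the power class principle
    (∀ (ι Λ : Type) [Fintype ι] [Fintype Λ] (κ R : ι → Type) (m : Λ → ℕ)
      [∀ i, Fintype (κ i)] [∀ i, Fintype (R i)] (n : ∀ i, R i → ℕ)
      (h : ∀ i, R i → MvPolynomial (κ i) ℚ) (N : ∀ i, Set (κ i → ℚ)),
      (∀ i, Admissible (n i) (h i) (N i)) →
      ∀ T : Set (∀ i, R i → ℚ),
        (∀ g ∈ T, ∀ g', (∀ i r, SameClass (n i r) (g i r) (g' i r)) → g' ∈ T) →
      ∀ (s : Λ → ℕ) (a : ∀ l, Option (Fin (m l)) → ℚ)
        (e : ∀ l, Option (Fin (m l)) → ∀ i, R i → ℕ),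
        (∀ l, s l ≠ 0) → (∀ l, s l = 2 ∨ m l ≤ 1) → (∀ l j i r, s l ∣ n i r * e l j i r) →
        Semialgebraic (realClosure (points h N T s a e))) ∧
    -- (2) lines
    (∀ (R : Type) [Finite R] (S : Set (ℕ × Polynomial ℚ)) (s : R → ℕ) (p : R → Polynomial ℚ),
      System S → (∀ r, Generated S (s r) (p r)) →
      Admissible s (fun r => inOneVariable (p r)) Set.univ) ∧
    -- (3) all rational points of fibre products of power covers over products of lines
    (∀ (n k : ℕ) (m : Fin k → ℕ) (s : Fin k → ℕ) (S : Fin n → Set (ℕ × Polynomial ℚ))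
      (A : ∀ l : Fin k, Option (Fin (m l)) → Fin n → Polynomial ℚ),
      (∀ l, s l ≠ 0) → (∀ l, s l = 2 ∨ m l ≤ 1) → (∀ i, System (S i)) →
      (∀ l j i, Generated (S i) (s l) (A l j i)) → Semialgebraic (realClosure (variety s A))) ∧
    -- (4) values of rational functions
    (∀ (n k : ℕ) (m : Fin k → ℕ) (s : Fin k → ℕ) (S : Fin n → Set (ℕ × Polynomial ℚ))
      (A : ∀ l : Fin k, Option (Fin (m l)) → Fin n → Polynomial ℚ),
      (∀ l, s l ≠ 0) → (∀ l, s l = 2 ∨ m l ≤ 1) → (∀ i, System (S i)) →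
      (∀ l j i, Generated (S i) (s l) (A l j i)) →
      ∀ (r : ℕ) (p : Fin r → MvPolynomial (Fin n ⊕ Σ l, Fin (m l)) ℚ)
        (q : MvPolynomial (Fin n ⊕ Σ l, Fin (m l)) ℚ),
        Semialgebraic (closure {y : Fin r → ℝ | ∃ w ∈ variety s A, eval w q ≠ 0 ∧
          ∀ c, y c = ((eval w (p c) / eval w q : ℚ) : ℝ)})) ∧
    -- (5) the elliptic fibrations `y² = z³ + B(x)`
    (∀ (n : ℕ) (S : Fin n → Set (ℕ × Polynomial ℚ)) (A : Fin n → Polynomial ℚ),
      (∀ i, System (S i)) → (∀ i, Generated (S i) 6 (A i)) →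
      Semialgebraic (realClosure {v : (Fin n ⊕ Fin 2) → ℚ |
        v (Sum.inr 1) ^ 2 = v (Sum.inr 0) ^ 3 + ∏ i, (A i).eval (v (Sum.inl i))})) ∧
    -- (6) the elliptic fibrations `y² = z³ + B(x) z`
    (∀ (n : ℕ) (S : Fin n → Set (ℕ × Polynomial ℚ)) (A : Fin n → Polynomial ℚ),
      (∀ i, System (S i)) → (∀ i, Generated (S i) 4 (A i)) →
      Semialgebraic (realClosure {v : (Fin n ⊕ Fin 2) → ℚ |
        v (Sum.inr 1) ^ 2 = v (Sum.inr 0) ^ 3 +
          (∏ i, (A i).eval (v (Sum.inl i))) * v (Sum.inr 0)})) := by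
  refine ⟨?_, ?_, ?_, ?_, ?_, ?_⟩
  · intro ι Λ _ _ κ R m _ _ n h N hN T hT s a e hs hm hd
    choose Sh hSh using fun l => fib_all (hs l) (hm l)
    exact SA.classical (Tot_SA (ν := fun l => Option (Fin (m l))) (μ := fun l => Fin (m l))
      (fun i => (admissible_iff _ _ _).1 (hN i)) hT a e hd hSh)
  · intro R _ S s p hS hp
    exact (admissible_iff _ _ _).2 ((system_lgs hS).over hp).adm
  · intro n k m s S A hs hm hS hA
    exact SA.classical (Var_SA hs hm A fun i => (system_lgs (hS i)).over fun r => hA r.1 r.2 i)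
  · intro n k m s S A hs hm hS hA r p q
    exact SA.classical (values_var (Var_SA hs hm A fun i => (system_lgs (hS i)).over
      fun r => hA r.1 r.2 i) p q)
  · intro n S A hS hA
    exact SA.classical (ell6_SA (fun i => system_lgs (hS i)) hA)
  · intro n S A hS hA
    exact SA.classical (ell4_SA (fun i => system_lgs (hS i)) hA)

end Pool.Agent.Results.MP_42de19_nt.PowerClasses
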