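import Pool.Agent.J4H71.SC.Fin

/-!
# The semialgebraic form of Mazur's conjecture for conditions on square classes, and for diagonal
# quadric bundles over products of lines with at most four branch points

Two rational numbers are in the same square class if they differ by the square of a nonzero
rational number (`0` is a class of its own).

A *block* consists of finitely many polynomials `h_r` in some variables, and a set `N` of rational
points `z`. It is *admissible* if `N` is a finite union of sets `N_α` with semialgebraic sets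
`W_α ⊇ N_α` such that each `h_r` vanishes identically or nowhere on `W_α`, and for each `z₀ ∈ N_α`
the closure of the set of all `z ∈ N_α`, for which `h_r(z)` and `h_r(z₀)` are in the same square
class for all `r`, meets `W_α` in a relatively open subset of `W_α`.

(1) The principle: let `z_i ∈ N_i` be points in finitely many admissible blocks, `T` an arbitrary
union of square classes of tuples of rational numbers, and let finitely many equations
`∑_j a_{l j} ∏_{i,r} h_{i r}(z_i) ^ {e_{l j i r}} u_{l j}² = 0` be given. The closure of the set of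
all `(z, u)` such that these equations are satisfied and the tuple of all `h_{i r}(z_i)` is in `T`
is semialgebraic over `ℚ`. (Without equations: the closure of any set of rational points which is
defined by a condition on the square classes of the values `h_{i r}(z_i)` is semialgebraic.)

Examples of admissible blocks are

(2) the line `ℚ`, with all its rational points, with functions which have odd multiplicities only
at four fixed (complex) points of the projective line: `p_r = c_r g_r² q_r`, where `q_r` divides a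
fixed separable polynomial `F` of degree at most four, and has an even degree if `F` has degree
four;

(3) `ℚᵐ` without the zeros of the `h_r`, if the product of the `h_r` is of degree at most two in
each variable;

(4) one polynomial `f` of degree at most four in each of `m` variables, with the rational points
which are nondegenerate for all variables (the three types of `MP_42de19_nt/SeveralParameters`),
`f(z) ≠ 0`.

(5) Let `F₁, …, F_n` be separable polynomials of degree at most four in one variable. Consider the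
affine variety `V` of the `(x₁, …, x_n, u)` with

  `A_{l 0}(x) + ∑_j A_{l j}(x) u_{l j}² = 0`,   `l = 1, …, k`,

where each coefficient is a product of functions `A_{l j i}(x_i)` as in (2), for `F_i`. The closure
of the set of all rational points of `V` is semialgebraic over `ℚ`.

(6) The same holds for the closure of the set of the values of rational functions on `V`.

Examples of (5): `w² = f₁(x₁) ⋯ f_n(x_n)` with polynomials of degree at most four (Kummer surfaces
of products of curves of genus one and their Calabi-Yau analogues), `y² = h(x) k(x)`,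
`w² = h(x) g(z)` with `deg h = deg k = 2`, `deg g ≤ 4` (bielliptic surfaces), all the conic bundles
`A(x, y) u² + B(x, y) v² = C(x, y)`, where `A, B, C` are products of a function of `x` and a
function of `y` with the same four branch points, and generally quotients of products of curves of
genus at most one by groups of exponent two.
-/

set_option autoImplicit false

namespace Pool.Agent.Results.MP_42de19_nt.SquareClasses

open MvPolynomial Pool.Agent.TH729.SQ Pool.Agent.H581R2 Pool.Agent.J4H71.SC Topology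

/-- Semialgebraic sets defined over `ℚ`: the finite unions of sets
`{p = 0, q₁ > 0, …, q_k > 0}`, where `p` and the `qᵢ` are polynomials with rational
coefficients. -/
def Semialgebraic {ι : Type} (S : Set (ι → ℝ)) : Prop :=
  ∃ (m : ℕ) (P : Fin m → MvPolynomial ι ℚ) (G : Fin m → Finset (MvPolynomial ι ℚ)),
    S = {x : ι → ℝ | ∃ j : Fin m, (aeval x (P j) : ℝ) = 0 ∧ ∀ g ∈ G j, (0 : ℝ) < aeval x g}

/-- The closure of a set of rational points in the set of the real points. -/
def realClosure {ι : Type} (D : Set (ι → ℚ)) : Set (ι → ℝ) :=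
  closure {x : ι → ℝ | ∃ z ∈ D, x = fun i => (z i : ℝ)}

/-- The same square class. -/
def SameClass (a b : ℚ) : Prop := ∃ r : ℚ, r ≠ 0 ∧ b = r ^ 2 * a

/-- The points of `N` at which all the functions have the same square classes as at `z₀`. -/
def likePoint {κ R : Type} (h : R → MvPolynomial κ ℚ) (N : Set (κ → ℚ)) (z₀ : κ → ℚ) :
    Set (κ → ℚ) :=
  {z | z ∈ N ∧ ∀ r, SameClass (eval z₀ (h r)) (eval z (h r))}

/-- Admissible blocks. -/
def Admissible {κ R : Type} (h : R → MvPolynomial κ ℚ) (N : Set (κ → ℚ)) : Prop :=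
  ∃ (A : Type) (_ : Finite A) (N' : A → Set (κ → ℚ)) (W : A → Set (κ → ℝ)),
    N = ⋃ α, N' α ∧ ∀ α, Semialgebraic (W α) ∧ (∀ z ∈ N' α, (fun i => (z i : ℝ)) ∈ W α) ∧
      (∀ r, (∀ x ∈ W α, (aeval x (h r) : ℝ) ≠ 0) ∨ (∀ x ∈ W α, (aeval x (h r) : ℝ) = 0)) ∧
      ∀ z₀ ∈ N' α, ∀ x ∈ W α, x ∈ realClosure (likePoint h (N' α) z₀) →
        realClosure (likePoint h (N' α) z₀) ∈ 𝓝[W α] x

/-- The value of the monomial `a ∏ g_{i r} ^ {e_{i r}}`. -/
def monomial {ι : Type} [Fintype ι] {R : ι → Type} [∀ i, Fintype (R i)] (a : ℚ)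
    (e : ∀ i, R i → ℕ) (g : ∀ i, R i → ℚ) : ℚ := a * ∏ i, ∏ r, g i r ^ e i r

/-- The rational points `(z, u)` as in (1); `w (inl ⟨i, ·⟩)` is `z_i`, and `w (inr ⟨l, j⟩)` is
`u_{l j}`. -/
def points {ι Λ : Type} {κ R : ι → Type} {μ : Λ → Type} [Fintype ι] [∀ i, Fintype (R i)]
    [∀ l, Fintype (μ l)] (h : ∀ i, R i → MvPolynomial (κ i) ℚ) (N : ∀ i, Set (κ i → ℚ))
    (T : Set (∀ i, R i → ℚ)) (a : ∀ l, μ l → ℚ) (e : ∀ l, μ l → ∀ i, R i → ℕ) :
    Set ((Σ i, κ i) ⊕ (Σ l, μ l) → ℚ) :=
  {w | (∀ i, (fun c => w (Sum.inl ⟨i, c⟩)) ∈ N i) ∧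
    (fun i r => eval (fun c => w (Sum.inl ⟨i, c⟩)) (h i r)) ∈ T ∧
    ∀ l, ∑ j, monomial (a l j) (e l j) (fun i r => eval (fun c => w (Sum.inl ⟨i, c⟩)) (h i r)) *
      w (Sum.inr ⟨l, j⟩) ^ 2 = 0}

/-- The polynomial `p` has odd multiplicities only at zeros of `F` (or at infinity): `p = c g² q`
with a divisor `q` of `F`, of even degree if `F` is of degree four. The constant `c` and the
polynomial `g` are arbitrary. -/
def Branch (F p : Polynomial ℚ) : Prop :=
  ∃ (c : ℚ) (g q q' : Polynomial ℚ), p = Polynomial.C c * g ^ 2 * q ∧ F = q * q' ∧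
    (F.natDegree ≤ 3 ∨ Even q.natDegree)

/-- A polynomial in one variable. -/
noncomputable def inOneVariable (p : Polynomial ℚ) : MvPolynomial (Fin 1) ℚ :=
  Polynomial.aeval (X 0 : MvPolynomial (Fin 1) ℚ) p

/-- The polynomial `f` has degree at most two along each line of direction `v`. -/
def QuadraticAlong {n : ℕ} (f : MvPolynomial (Fin n) ℚ) (v : Fin n → ℚ) : Prop :=
  ∀ z : Fin n → ℚ, ∃ A B : ℚ, ∀ s : ℚ, eval (z + s • v) f = A * s ^ 2 + B * s + eval z f

/-- The polynomial `f(z + s v)` in `s`. -/
noncomputable def restriction {n : ℕ} (f : MvPolynomial (Fin n) ℚ) (z v : Fin n → ℚ) :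
    Polynomial ℚ :=
  aeval (fun k => Polynomial.C (z k) + Polynomial.C (v k) * Polynomial.X) f

/-- The cubic covariant of the pencil of lines through `z`. -/
noncomputable def B {n : ℕ} (f : MvPolynomial (Fin n) ℚ) (z v : Fin n → ℚ) : ℚ :=
  (restriction f z v).coeff 1 ^ 3 -
    4 * (restriction f z v).coeff 0 * (restriction f z v).coeff 1 * (restriction f z v).coeff 2 +
    8 * (restriction f z v).coeff 0 ^ 2 * (restriction f z v).coeff 3

/-- The quartic covariant of the pencil of lines through `z`. -/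
noncomputable def Q {n : ℕ} (f : MvPolynomial (Fin n) ℚ) (z v : Fin n → ℚ) : ℚ :=
  ((restriction f z v).coeff 1 ^ 2 -
    4 * (restriction f z v).coeff 0 * (restriction f z v).coeff 2) ^ 2 -
    64 * (restriction f z v).coeff 0 ^ 3 * (restriction f z v).coeff 4

/-- The point `z` is nondegenerate for the `i`-th variable: `f` has degree at most two in this
variable, or there is a nondegenerate quadratic direction, or a nondegenerate plane in a space of
directions along which the degree of `f` is at most four and which contains the `i`-th direction. -/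
def Nondegenerate {n : ℕ} (f : MvPolynomial (Fin n) ℚ) (i : Fin n) (z : Fin n → ℚ) : Prop :=
  (f.degreeOf i ≤ 2 ∨ ∃ v : Fin n → ℚ, v i = 0 ∧ QuadraticAlong f v ∧
    (∃ A B : ℚ, A ≠ 0 ∧ B ^ 2 - 4 * A * eval z f ≠ 0 ∧
      ∀ s : ℚ, eval (z + s • v) f = A * s ^ 2 + B * s + eval z f) ∧
    ¬ ∃ c : ℚ, ∀ s : ℚ, eval (z + s • v) (pderiv i f) = c * eval (z + s • v) f) ∨
  ∃ V : Submodule ℚ (Fin n → ℚ), Pi.single i 1 ∈ V ∧
    (∀ z, ∀ v ∈ V, (restriction f z v).natDegree ≤ 4) ∧
    ∃ v ∈ V, ∃ u ∈ V, ∀ α β γ : ℚ, (∀ s t : ℚ, (α * s + β * t) * B f z (s • v + t • u) =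
      γ * Q f z (s • v + t • u)) → α = 0 ∧ β = 0 ∧ γ = 0

/-- The rational points of the affine variety
`A_{l 0}(x) + ∑_j A_{l j}(x) u_{l j}² = 0`, `l = 1, …, k`, where
`A_{l 0}(x) = ∏_i A l none i (x_i)` and `A_{l j}(x) = ∏_i A l (some j) i (x_i)`. The coordinate
`w (inl i)` is `x_i`, and `w (inr ⟨l, j⟩)` is `u_{l j}`. -/
def bundle {n k : ℕ} {m : Fin k → ℕ} (A : ∀ l : Fin k, Option (Fin (m l)) → Fin n → Polynomial ℚ) :
    Set ((Fin n ⊕ Σ l, Fin (m l)) → ℚ) :=
  {w | ∀ l, (∏ i, (A l none i).eval (w (Sum.inl i))) +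
    ∑ j, (∏ i, (A l (some j) i).eval (w (Sum.inl i))) * w (Sum.inr ⟨l, j⟩) ^ 2 = 0}

lemma admissible_iff {κ R : Type} [Finite κ] (h : R → MvPolynomial κ ℚ) (N : Set (κ → ℚ)) :
    Admissible h N ↔ Adm h N := by
  constructor
  · rintro ⟨A, hA, N', W, hN, hW⟩
    exact ⟨A, hA, N', W, hN, fun α => ⟨SA.of_classical (hW α).1, (hW α).2.1, (hW α).2.2.1,
      (hW α).2.2.2⟩⟩
  · rintro ⟨A, hA, N', W, hN, hW⟩
    exact ⟨A, hA, N', W, hN, fun α => ⟨SA.classical (hW α).sa, (hW α).sub, (hW α).sign,
      (hW α).opn⟩⟩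

/-- **Square classes.** -/
theorem result :
    -- (1) the square class principle
    (∀ (ι Λ : Type) [Fintype ι] [Fintype Λ] (κ R : ι → Type) (μ : Λ → Type)
      [∀ i, Fintype (κ i)] [∀ i, Fintype (R i)] [∀ l, Fintype (μ l)]
      (h : ∀ i, R i → MvPolynomial (κ i) ℚ) (N : ∀ i, Set (κ i → ℚ)),
      (∀ i, Admissible (h i) (N i)) →
      ∀ T : Set (∀ i, R i → ℚ), (∀ g ∈ T, ∀ g', (∀ i r, SameClass (g i r) (g' i r)) → g' ∈ T) →
      ∀ (a : ∀ l, μ l → ℚ) (e : ∀ l, μ l → ∀ i, R i → ℕ),
        Semialgebraic (realClosure (points h N T a e))) ∧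
    -- (2) lines with at most four branch points
    (∀ (R : Type) [Finite R] (F : Polynomial ℚ) (p : R → Polynomial ℚ), F.Separable →
      F.natDegree ≤ 4 → (∀ r, Branch F (p r)) →
      Admissible (fun r => inOneVariable (p r)) Set.univ) ∧
    -- (3) a product of degree at most two in each variable
    (∀ (R : Type) [Fintype R] (m : ℕ) (h : R → MvPolynomial (Fin m) ℚ),
      (∀ i, (∏ r, h r).degreeOf i ≤ 2) → Admissible h {z | ∀ r, eval z (h r) ≠ 0}) ∧
    -- (4) one polynomial of degree at most four in each variable, nondegenerate points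
    (∀ (m : ℕ) (f : MvPolynomial (Fin m) ℚ), (∀ i, f.degreeOf i ≤ 4) →
      Admissible (fun _ : Unit => f) {z | (∀ i, Nondegenerate f i z) ∧ eval z f ≠ 0}) ∧
    -- (5) all rational points of diagonal quadric bundles over products of lines
    (∀ (n k : ℕ) (m : Fin k → ℕ) (F : Fin n → Polynomial ℚ)
      (A : ∀ l : Fin k, Option (Fin (m l)) → Fin n → Polynomial ℚ),
      (∀ i, (F i).Separable ∧ (F i).natDegree ≤ 4) → (∀ l j i, Branch (F i) (A l j i)) →
      Semialgebraic (realClosure (bundle A))) ∧
    -- (6) values of rational functions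
    (∀ (n k : ℕ) (m : Fin k → ℕ) (F : Fin n → Polynomial ℚ)
      (A : ∀ l : Fin k, Option (Fin (m l)) → Fin n → Polynomial ℚ),
      (∀ i, (F i).Separable ∧ (F i).natDegree ≤ 4) → (∀ l j i, Branch (F i) (A l j i)) →
      ∀ (s : ℕ) (p : Fin s → MvPolynomial (Fin n ⊕ Σ l, Fin (m l)) ℚ)
        (q : MvPolynomial (Fin n ⊕ Σ l, Fin (m l)) ℚ),
        Semialgebraic (closure {y : Fin s → ℝ | ∃ w ∈ bundle A, eval w q ≠ 0 ∧
          ∀ c, y c = ((eval w (p c) / eval w q : ℚ) : ℝ)})) := by
  refine ⟨?_, ?_, ?_, ?_, ?_, ?_⟩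
  · intro ι Λ _ _ κ R μ _ _ _ h N hN T hT a e
    exact SA.classical (Tot_SA (fun i => (admissible_iff _ _).1 (hN i)) hT a e)
  · intro R _ F p hF hd hp
    exact (admissible_iff _ _).2 (line_adm hF hd p hp)
  · intro R _ m h hd
    have h1 := (multi_adm h hd).adm
    rw [admissible_iff]
    convert h1 using 1
    ext z
    simp only [Set.mem_ofPred_eq, map_prod, ne_eq, Finset.prod_eq_zero_iff, Finset.mem_univ,
      true_and, not_exists]
  · intro m f hf
    exact (admissible_iff _ _).2 (nd_piece hf).adm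
  · intro n k m F A hF hA
    exact SA.classical (Aff_SA (fun i => (hF i).1) (fun i => (hF i).2) A hA)
  · intro n k m F A hF hA s p q
    have h1 := values_one (κ := Empty) (Aff_SA (fun i => (hF i).1) (fun i => (hF i).2) A hA)
      (fun c => rename Sum.inl (p c)) (rename Sum.inl q)
    have e : ∀ (x : (Fin n ⊕ Σ l, Fin (m l)) → ℚ) (u : Empty → ℚ)
        (f : MvPolynomial (Fin n ⊕ Σ l, Fin (m l)) ℚ),
        eval (Sum.elim x u) (rename Sum.inl f) = eval x f := by
      intro x u f
      rw [eval_rename]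
      rfl
    simp only [e] at h1
    have h2 : {y : Fin s → ℝ | ∃ w ∈ bundle A, eval w q ≠ 0 ∧
          ∀ c, y c = ((eval w (p c) / eval w q : ℚ) : ℝ)} =
        {y : Fin s → ℝ | ∃ (x : (Fin n ⊕ Σ l, Fin (m l)) → ℚ) (_ : Empty → ℚ), x ∈ Aff A ∧
          eval x q ≠ 0 ∧ ∀ c, y c = ((eval x (p c) / eval x q : ℚ) : ℝ)} := by
      ext y
      constructor
      · rintro ⟨w, h1, h2, h3⟩
        exact ⟨w, fun e => e.elim, h1, h2, h3⟩
      · rintro ⟨w, -, h1, h2, h3⟩
        exact ⟨w, h1, h2, h3⟩
    rw [h2]
    exact SA.classical h1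

end Pool.Agent.Results.MP_42de19_nt.SquareClasses
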