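import Pool.Agent.J4H71.CB.Fin

/-!
# The semialgebraic form of Mazur's conjecture for bundles of cubic hypersurfaces

Two rational numbers are in the same `n`-th power class if they differ by the `n`-th power of a
nonzero rational number (`0` is a class of its own).

A *block* consists of finitely many polynomials `h_r` in some variables, with exponents `n_r`, and
a set `N` of rational points `z`. It is *admissible* if `N` is a finite union of sets `N_α` with
semialgebraic sets `W_α ⊇ N_α` such that each `h_r` vanishes identically or nowhere on `W_α`, and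
for each `z₀ ∈ N_α` the closure of the set of all `z ∈ N_α`, for which `h_r(z)` and `h_r(z₀)` are
in the same `n_r`-th power class for all `r`, meets `W_α` in a relatively open subset of `W_α`.
(This is the definition of `PowerClasses` and `NormForms`.)

(1) *Cubic polynomials.* Every polynomial `f` of degree at most three, in any number of variables,
is an admissible block for the exponent three, with all rational points. No assumption is made on
`f`: the family of all cubic hypersurfaces `f(z) = c r³`, with arbitrary rational `c`, behaves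
uniformly.

(2) *The principle for sums of cubic forms.* Let `z_i ∈ N_i` be points in finitely many admissible
blocks, `T` an arbitrary union of classes of tuples of rational numbers, and let finitely many
equations `c_{l 0}(z) + ∑_j c_{l j}(z) H_{l j}(u_{l j}) = 0` be given, with any number of summands,
vectors `u_{l j} ∈ M_{l j}`, and `c_{l j}(z) = a_{l j} ∏_{i,r} h_{i r}(z_i) ^ {e_{l j i r}}`, where
`3 ∣ n_{i r} e_{l j i r}`. Here `H_{l j}` is a cubic form, `M_{l j}` is stable under multiplication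
with rational numbers, and `M_{l j}`, `H_{l j}` form an admissible block for the exponent three; by
(1) all cubic forms with all rational points are possible. The closure of the set of all `(z, u)`
such that these equations are satisfied and the tuple of all `h_{i r}(z_i)` is in `T` is
semialgebraic over `ℚ`.

(3) *All rational points of bundles of cubic hypersurfaces.* Consider the affine variety of the
`(x₁, …, x_n, z₁, …, z_q, u)` with finitely many equations

  `A_0(x, z) + ∑_j A_j(x, z) F_j(u_j) = 0`,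

with any number of summands, where the `F_j` are arbitrary cubic forms in disjoint sets of
variables, and each coefficient is the product of a constant, of functions of the `x_i` which are
generated by a cubic system for `x_i`, and of powers of arbitrary polynomials `f_k(z_k)` of degree
at most three in the vector `z_k`. A cubic system is `{F}`, with a separable polynomial `F` of
degree two or three, or `{L₁ L₃², L₂ L₃²}` with pairwise independent linear forms. The closure of
the set of all rational points is semialgebraic over `ℚ`.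

(4) The same holds for the closure of the set of the values of rational functions on these
varieties.

Examples of (3): for arbitrary polynomials `f_k` of degree at most three, in any number of
variables, the equations `f₁(z₁) ⋯ f_n(z_n) = F(u)` with a cubic form `F`, in particular
`f₁(z₁) ⋯ f_n(z_n) = u³`, and the bundles `f₀(z₀) + f₁(z₁) u₁³ + ⋯ + f_n(z_n) u_n³ = 0` of diagonal
cubic hypersurfaces; over the line `L₁(x) F₁(u₁) + L₂(x) F₂(u₂) + F₃(u₃) = a`, with linear forms
`L_i` and cubic forms `F_j`; and all systems of such equations.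

Ingredients of (1) (`J4H71/CB`): the tangent map of the curves `f(t) = c y³` changes the invariant
`-4 H³ / G²` (`H`, `G` the covariants of the binary cubic form) by a fixed rational function of
degree four, so that its height increases, uniformly in `f` and `c` (`Mv`); moves along rational
lines (`Sub`, `Opn`); a point `z` at which all lines are exceptional is a vertex of a splitting
`F = a s³ + F'` or `F = s Q`, or `F` is a cone (`Exc`), such points lie in finitely many proper
subspaces (`Cov`), and induction over all rational subspaces (`Cone`, `Full`, `Sl`). In (2), a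
diagonal cubic form with a rational zero which is not exceptional has a dense set of rational zeros
(`Lat`, `NC`, `P3`, `P4`, `PN`, `Den`, `Dich`, `FibC`).
-/

set_option autoImplicit false

namespace Pool.Agent.Results.MP_42de19_nt.CubicBundles

open MvPolynomial Pool.Agent.TH729.SQ Pool.Agent.H581R2 Pool.Agent.J4H71.SC Pool.Agent.J4H71.PC
  Pool.Agent.J4H71.CB Topology

/-- Semialgebraic sets defined over `ℚ`: the finite unions of sets
`{p = 0, q₁ > 0, …, q_k > 0}`, where `p` and the `qᵢ` are polynomials with rational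
coefficients. -/
def Semialgebraic {ι : Type} (S : Set (ι → ℝ)) : Prop :=
  ∃ (m : ℕ) (P : Fin m → MvPolynomial ι ℚ) (G : Fin m → Finset (MvPolynomial ι ℚ)),
    S = {x : ι → ℝ | ∃ j : Fin m, (aeval x (P j) : ℝ) = 0 ∧ ∀ g ∈ G j, (0 : ℝ) < aeval x g}

/-- The closure of a set of rational points in the set of the real points. -/
def realClosure {ι : Type} (D : Set (ι → ℚ)) : Set (ι → ℝ) :=
  closure {x : ι → ℝ | ∃ z ∈ D, x = fun i => (z i : ℝ)}

/-- The same `n`-th power class. -/
def SameClass (n : ℕ) (a b : ℚ) : Prop := ∃ r : ℚ, r ≠ 0 ∧ b = r ^ n * a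

/-- The points of `N` at which all the functions `h r` have the same `n r`-th power classes as at
`z₀`. -/
def likePoint {κ R : Type} (n : R → ℕ) (h : R → MvPolynomial κ ℚ) (N : Set (κ → ℚ)) (z₀ : κ → ℚ) :
    Set (κ → ℚ) :=
  {z | z ∈ N ∧ ∀ r, SameClass (n r) (eval z₀ (h r)) (eval z (h r))}

/-- Admissible blocks. -/
def Admissible {κ R : Type} (n : R → ℕ) (h : R → MvPolynomial κ ℚ) (N : Set (κ → ℚ)) : Prop :=
  ∃ (A : Type) (_ : Finite A) (N' : A → Set (κ → ℚ)) (W : A → Set (κ → ℝ)),
    N = ⋃ α, N' α ∧ ∀ α, Semialgebraic (W α) ∧ (∀ z ∈ N' α, (fun i => (z i : ℝ)) ∈ W α) ∧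
      (∀ r, (∀ x ∈ W α, (aeval x (h r) : ℝ) ≠ 0) ∨ (∀ x ∈ W α, (aeval x (h r) : ℝ) = 0)) ∧
      ∀ z₀ ∈ N' α, ∀ x ∈ W α, x ∈ realClosure (likePoint n h (N' α) z₀) →
        realClosure (likePoint n h (N' α) z₀) ∈ 𝓝[W α] x

/-- `H` is a cubic form, `M` is stable under the multiplication with rational numbers, and they
form an admissible block for the exponent three. -/
def CubicBlock {d : ℕ} (H : MvPolynomial (Fin d) ℚ) (M : Set (Fin d → ℚ)) : Prop :=
  H.IsHomogeneous 3 ∧ (∀ (r : ℚ), ∀ u ∈ M, (fun k => r * u k) ∈ M) ∧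
    Admissible (fun _ : Unit => 3) (fun _ => H) M

/-- The value of the monomial `a ∏ g_{i r} ^ {e_{i r}}`. -/
def monomial {ι : Type} [Fintype ι] {R : ι → Type} [∀ i, Fintype (R i)] (a : ℚ)
    (e : ∀ i, R i → ℕ) (g : ∀ i, R i → ℚ) : ℚ := a * ∏ i, ∏ r, g i r ^ e i r

/-- The rational points `(z, u)` as in (2); `w (inl ⟨i, ·⟩)` is `z_i`, and `w (inr ⟨l, j, ·⟩)` is
`u_{l j}`. The coefficient `c_{l 0}` has the index `none`. -/
def points {ι Λ : Type} {κ R : ι → Type} {m : Λ → ℕ} {d : ∀ l, Fin (m l) → ℕ} [Fintype ι]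
    [∀ i, Fintype (R i)] (h : ∀ i, R i → MvPolynomial (κ i) ℚ) (N : ∀ i, Set (κ i → ℚ))
    (T : Set (∀ i, R i → ℚ)) (a : ∀ l, Option (Fin (m l)) → ℚ)
    (e : ∀ l, Option (Fin (m l)) → ∀ i, R i → ℕ)
    (H : ∀ l (j : Fin (m l)), MvPolynomial (Fin (d l j)) ℚ)
    (M : ∀ l (j : Fin (m l)), Set (Fin (d l j) → ℚ)) :
    Set ((Σ i, κ i) ⊕ (Σ l, Σ j : Fin (m l), Fin (d l j)) → ℚ) :=
  {w | (∀ i, (fun c => w (Sum.inl ⟨i, c⟩)) ∈ N i) ∧
    (fun i r => eval (fun c => w (Sum.inl ⟨i, c⟩)) (h i r)) ∈ T ∧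
    ∀ l, (∀ j, (fun c => w (Sum.inr ⟨l, j, c⟩)) ∈ M l j) ∧
      monomial (a l none) (e l none) (fun i r => eval (fun c => w (Sum.inl ⟨i, c⟩)) (h i r)) +
      ∑ j, monomial (a l (some j)) (e l (some j))
        (fun i r => eval (fun c => w (Sum.inl ⟨i, c⟩)) (h i r)) *
          eval (fun c => w (Sum.inr ⟨l, j, c⟩)) (H l j) = 0}

/-- The linear form `a x + b`. -/
noncomputable def linear (a b : ℚ) : Polynomial ℚ := Polynomial.C a * Polynomial.X + Polynomial.C b

/-- Cubic systems: `{F}` with a separable polynomial `F` of degree two or three, or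
`{L₁ L₃², L₂ L₃²}` with pairwise independent linear forms `L_i = a_i x + b_i`. -/
def CubicSystem (S : Set (Polynomial ℚ)) : Prop :=
  (∃ F : Polynomial ℚ, F.Separable ∧ (F.natDegree = 2 ∨ F.natDegree = 3) ∧ S = {F}) ∨
  (∃ a b : Fin 3 → ℚ, (∀ i j, i ≠ j → a i * b j - b i * a j ≠ 0) ∧
    S = {linear (a 0) (b 0) * linear (a 2) (b 2) ^ 2, linear (a 1) (b 1) * linear (a 2) (b 2) ^ 2})

/-- The polynomial `p` is generated by the cubic system `S`:
`p = c (g / g₁)³ ∏_j F_j^{e_j}` with `F_j ∈ S`. The constant `c` and the polynomials `g`, `g₁ ≠ 0`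
are arbitrary. -/
def Generated (S : Set (Polynomial ℚ)) (p : Polynomial ℚ) : Prop :=
  ∃ (m : ℕ) (F : Fin m → Polynomial ℚ) (e : Fin m → ℕ) (c : ℚ) (g g₁ : Polynomial ℚ),
    g₁ ≠ 0 ∧ (∀ j, F j ∈ S) ∧ p * g₁ ^ 3 = Polynomial.C c * g ^ 3 * ∏ j, F j ^ e j

section variety

variable {n q k : ℕ} {D : Fin q → ℕ} {m : Fin k → ℕ} {d : ∀ l, Fin (m l) → ℕ}

/-- The coefficient `a_{l j} ∏_i A_{l j i}(x_i) ∏_i f_i(z_i)^{e_{l j i}}`. The coordinate
`w (inl i)` is `x_i`, and `w (inr (inl ⟨i, ·⟩))` is the vector `z_i`. -/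
noncomputable def coefficient (a : ∀ l, Option (Fin (m l)) → ℚ)
    (A : ∀ l : Fin k, Option (Fin (m l)) → Fin n → Polynomial ℚ)
    (f : ∀ i, MvPolynomial (Fin (D i)) ℚ) (e : ∀ l, Option (Fin (m l)) → Fin q → ℕ)
    (l : Fin k) (j : Option (Fin (m l)))
    (w : (Fin n ⊕ (Σ i, Fin (D i)) ⊕ (Σ l, Σ j : Fin (m l), Fin (d l j))) → ℚ) : ℚ :=
  a l j * (∏ i, (A l j i).eval (w (Sum.inl i))) *
    ∏ i, eval (fun c => w (Sum.inr (Sum.inl ⟨i, c⟩))) (f i) ^ e l j i

/-- The rational points of the affine variety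
`A_{l 0}(x, z) + ∑_j A_{l j}(x, z) F_{l j}(u_{l j}) = 0`, `l = 1, …, k`. The vector `u_{l j}` is
`w (inr (inr ⟨l, j, ·⟩))`, and the coefficient `A_{l 0}` has the index `none`. -/
def variety (a : ∀ l, Option (Fin (m l)) → ℚ)
    (A : ∀ l : Fin k, Option (Fin (m l)) → Fin n → Polynomial ℚ)
    (f : ∀ i, MvPolynomial (Fin (D i)) ℚ) (e : ∀ l, Option (Fin (m l)) → Fin q → ℕ)
    (F : ∀ l (j : Fin (m l)), MvPolynomial (Fin (d l j)) ℚ) :
    Set ((Fin n ⊕ (Σ i, Fin (D i)) ⊕ (Σ l, Σ j : Fin (m l), Fin (d l j))) → ℚ) :=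
  {w | ∀ l, coefficient a A f e l none w + ∑ j, coefficient a A f e l (some j) w *
    eval (fun c => w (Sum.inr (Sum.inr ⟨l, j, c⟩))) (F l j) = 0}

end variety

lemma admissible_iff {κ R : Type} [Finite κ] (n : R → ℕ) (h : R → MvPolynomial κ ℚ)
    (N : Set (κ → ℚ)) : Admissible n h N ↔ Adm n h N := by
  constructor
  · rintro ⟨A, hA, N', W, hN, hW⟩
    exact ⟨A, hA, N', W, hN, fun α => ⟨SA.of_classical (hW α).1, (hW α).2.1, (hW α).2.2.1,
      (hW α).2.2.2⟩⟩
  · rintro ⟨A, hA, N', W, hN, hW⟩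
    exact ⟨A, hA, N', W, hN, fun α => ⟨SA.classical (hW α).sa, (hW α).sub, (hW α).sign,
      (hW α).opn⟩⟩

lemma generated_lgf {S : Set (Polynomial ℚ)} (h : CubicSystem S) {R : Type} [Finite R]
    {p : R → Polynomial ℚ} (hp : ∀ r, Generated S (p r)) : LGf (fun _ => 3) p := by
  have hS : LGS ((fun F => (3, F)) '' S) := by
    rcases h with ⟨F, hF, hd, rfl⟩ | ⟨a, b, hab, rfl⟩
    · rw [Set.image_singleton]
      exact lgs_three hF hd
    · rw [Set.image_pair]
      exact lgs_three_split (hab 0 1 (by decide)) (hab 0 2 (by decide)) (hab 1 2 (by decide))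
  refine hS.over fun r => ?_
  obtain ⟨m, F, e, c, g, g₁, h1, h2, h3⟩ := hp r
  exact ⟨m, fun j => (3, F j), e, c, g, g₁, h1,
    fun j => ⟨Set.mem_image_of_mem _ (h2 j), dvd_mul_right _ _⟩, h3⟩

lemma eval_scale {d : ℕ} {H : MvPolynomial (Fin d) ℚ} (hH : H.IsHomogeneous 3) (r : ℚ)
    (u : Fin d → ℚ) : eval (fun k => r * u k) H = r ^ 3 * eval u H := by
  obtain ⟨b, -, hb⟩ := exists_tri hH
  rw [hb, hb]
  exact cub_smul r u

/-- **Bundles of cubic hypersurfaces.** -/
theorem result :
    -- (1) cubic polynomials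
    (∀ (d : ℕ) (f : MvPolynomial (Fin d) ℚ), f.totalDegree ≤ 3 →
      Admissible (fun _ : Unit => 3) (fun _ => f) Set.univ) ∧
    -- (2) the principle
    (∀ (ι Λ : Type) [Fintype ι] [Fintype Λ] (κ R : ι → Type) (m : Λ → ℕ)
      (d : ∀ l, Fin (m l) → ℕ) [∀ i, Fintype (κ i)] [∀ i, Fintype (R i)] (n : ∀ i, R i → ℕ)
      (h : ∀ i, R i → MvPolynomial (κ i) ℚ) (N : ∀ i, Set (κ i → ℚ)),
      (∀ i, Admissible (n i) (h i) (N i)) →
      ∀ T : Set (∀ i, R i → ℚ),
        (∀ g ∈ T, ∀ g', (∀ i r, SameClass (n i r) (g i r) (g' i r)) → g' ∈ T) →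
      ∀ (a : ∀ l, Option (Fin (m l)) → ℚ) (e : ∀ l, Option (Fin (m l)) → ∀ i, R i → ℕ)
        (H : ∀ l (j : Fin (m l)), MvPolynomial (Fin (d l j)) ℚ)
        (M : ∀ l (j : Fin (m l)), Set (Fin (d l j) → ℚ)),
        (∀ l j, CubicBlock (H l j) (M l j)) → (∀ l j i r, 3 ∣ n i r * e l j i r) →
        Semialgebraic (realClosure (points h N T a e H M))) ∧
    -- (3) all rational points
    (∀ (n q k : ℕ) (D : Fin q → ℕ) (m : Fin k → ℕ) (d : ∀ l, Fin (m l) → ℕ)
      (S : Fin n → Set (Polynomial ℚ)) (a : ∀ l, Option (Fin (m l)) → ℚ)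
      (A : ∀ l : Fin k, Option (Fin (m l)) → Fin n → Polynomial ℚ)
      (f : ∀ i, MvPolynomial (Fin (D i)) ℚ) (e : ∀ l, Option (Fin (m l)) → Fin q → ℕ)
      (F : ∀ l (j : Fin (m l)), MvPolynomial (Fin (d l j)) ℚ),
      (∀ i, CubicSystem (S i)) → (∀ l j i, Generated (S i) (A l j i)) →
      (∀ i, (f i).totalDegree ≤ 3) → (∀ l j, (F l j).IsHomogeneous 3) →
      Semialgebraic (realClosure (variety a A f e F))) ∧
    -- (4) values of rational functions
    (∀ (n q k : ℕ) (D : Fin q → ℕ) (m : Fin k → ℕ) (d : ∀ l, Fin (m l) → ℕ)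
      (S : Fin n → Set (Polynomial ℚ)) (a : ∀ l, Option (Fin (m l)) → ℚ)
      (A : ∀ l : Fin k, Option (Fin (m l)) → Fin n → Polynomial ℚ)
      (f : ∀ i, MvPolynomial (Fin (D i)) ℚ) (e : ∀ l, Option (Fin (m l)) → Fin q → ℕ)
      (F : ∀ l (j : Fin (m l)), MvPolynomial (Fin (d l j)) ℚ),
      (∀ i, CubicSystem (S i)) → (∀ l j i, Generated (S i) (A l j i)) →
      (∀ i, (f i).totalDegree ≤ 3) → (∀ l j, (F l j).IsHomogeneous 3) →
      ∀ (r : ℕ) (P : Fin r → MvPolynomial
          (Fin n ⊕ (Σ i, Fin (D i)) ⊕ (Σ l, Σ j : Fin (m l), Fin (d l j))) ℚ)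
        (Q : MvPolynomial (Fin n ⊕ (Σ i, Fin (D i)) ⊕ (Σ l, Σ j : Fin (m l), Fin (d l j))) ℚ),
        Semialgebraic (closure {y : Fin r → ℝ | ∃ w ∈ variety a A f e F, eval w Q ≠ 0 ∧
          ∀ c, y c = ((eval w (P c) / eval w Q : ℚ) : ℝ)})) := by
  have key : ∀ (n q k : ℕ) (D : Fin q → ℕ) (m : Fin k → ℕ) (d : ∀ l, Fin (m l) → ℕ)
      (S : Fin n → Set (Polynomial ℚ)) (a : ∀ l, Option (Fin (m l)) → ℚ)
      (A : ∀ l : Fin k, Option (Fin (m l)) → Fin n → Polynomial ℚ)
      (f : ∀ i, MvPolynomial (Fin (D i)) ℚ) (e : ∀ l, Option (Fin (m l)) → Fin q → ℕ)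
      (F : ∀ l (j : Fin (m l)), MvPolynomial (Fin (d l j)) ℚ),
      (∀ i, CubicSystem (S i)) → (∀ l j i, Generated (S i) (A l j i)) →
      (∀ i, (f i).totalDegree ≤ 3) → (∀ l j, (F l j).IsHomogeneous 3) →
      SA (closure (rl (variety a A f e F))) := by
    intro n q k D m d S a A f e F hS hA hf hF
    exact VarD_SA a A (fun i => generated_lgf (hS i) fun r => hA r.1 r.2 i) f hf e F hF
  refine ⟨?_, ?_, ?_, ?_⟩
  · intro d f hf
    rw [admissible_iff]
    exact adm_poly hf
  · intro ι Λ _ _ κ R m d _ _ n h N hN T hT a e H M hH hd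
    exact SA.classical (prin3 (fun i => (admissible_iff _ _ _).1 (hN i)) hT a e hd
      (fun l j => (hH l j).2.1) (fun l j => eval_scale (hH l j).1)
      (fun l j => (admissible_iff _ _ _).1 (hH l j).2.2))
  · intro n q k D m d S a A f e F hS hA hf hF
    exact SA.classical (key n q k D m d S a A f e F hS hA hf hF)
  · intro n q k D m d S a A f e F hS hA hf hF r P Q
    exact SA.classical (values_var (key n q k D m d S a A f e F hS hA hf hF) P Q)

end Pool.Agent.Results.MP_42de19_nt.CubicBundles
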