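import Pool.Agent.J4H71.NF.Var

/-!
# The semialgebraic form of Mazur's conjecture for norm form equations

Two rational numbers are in the same `n`-th power class if they differ by the `n`-th power of a
nonzero rational number (`0` is a class of its own).

A *block* consists of finitely many polynomials `h_r` in some variables, with exponents `n_r`, and
a set `N` of rational points `z`. It is *admissible* if `N` is a finite union of sets `N_α` with
semialgebraic sets `W_α ⊇ N_α` such that each `h_r` vanishes identically or nowhere on `W_α`, and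
for each `z₀ ∈ N_α` the closure of the set of all `z ∈ N_α`, for which `h_r(z)` and `h_r(z₀)` are
in the same `n_r`-th power class for all `r`, meets `W_α` in a relatively open subset of `W_α`.
(This is the definition of `PowerClasses`. There it is shown that the line, with all its rational
points, is admissible for functions `p(x)` generated by a *system* with curves of genus at most
one.)

(1) *Relative invariants.* Let `g(t)` be a square matrix of polynomials in parameters `t`, with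
`g(t₀) = 1`, and let the polynomials `h_r` satisfy `h_r(g(t) z) = χ_r(t) h_r(z)`. The set of the
rational points `z` with `h_r(z) ≠ 0`, at which the derivative of `t ↦ g(t) z` at `t₀` is
surjective, is an admissible block for the functions `h_r` and arbitrary exponents `n_r ≥ 1`.
(For instance, the relative invariants of prehomogeneous vector spaces of general linear groups.)

(2) *Norm forms.* Let `K` be a number field, with coordinates with respect to some basis. The
space `K`, with all its rational points, is an admissible block for powers of the norm form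
`N_{K/ℚ}`, for arbitrary exponents.

(3) *The principle.* Let `z_i ∈ N_i` be points in finitely many admissible blocks, `T` an arbitrary
union of classes of tuples of rational numbers, and let finitely many equations
`c_{l 0}(z) + ∑_j c_{l j}(z) H_{l j}(u_l) = 0`, `u_l ∈ M_l`, be given, with
`c_{l j}(z) = a_{l j} ∏_{i,r} h_{i r}(z_i) ^ {e_{l j i r}}`, `s_l ∣ n_{i r} e_{l j i r}`, where
* `s_l = 2`, `M_l` is the whole space, and the `H_{l j}(u_l)` are the `u_{l j}²`, or
* there is only one `H_l`, it is quasi-homogeneous of degree `s_l`, for some integral weights, `M_l`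
  is invariant under the scaling, and `M_l`, `H_l`, `s_l` form an admissible block.
The closure of the set of all `(z, u)` such that these equations are satisfied and the tuple of all
`h_{i r}(z_i)` is in `T` is semialgebraic over `ℚ`.

(4) *All rational points of norm form equations.* Consider the affine variety of the
`(x₁, …, x_n, u)` with finitely many equations

  `A_0(x) + ∑_j A_j(x) u_j² = 0`  or  `A_0(x) + A_1(x) N_{K/ℚ}(u)^e = 0`,

with a number field `K` and `e ≥ 1` depending on the equation, where each coefficient is a product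
of functions `A_{j i}(x_i)` which are generated by a system for `x_i` with the exponent two, or
`e [K : ℚ]`. The closure of the set of all rational points is semialgebraic over `ℚ`.

(5) The same holds for the closure of the set of the values of rational functions on these
varieties.

Examples of (4), with separable `f_i`: `N_{K/ℚ}(u) = f₁(x₁) ⋯ f_n(x_n)` with `[K : ℚ] = 3` and
`deg f_i ≤ 3`, or `[K : ℚ] = 4` and `deg f_i ≤ 2`; for every number field `K` of degree `d` and
every `n` the equation `N_{K/ℚ}(u) = a ∏ (a_i x_i + b_i)^{k_i} (c_i x_i + d_i)^{m_i}`, with `d` a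
divisor of `k_i + m_i`; and all systems of such equations. By (5), coefficients which are norms of
further variables are also possible, such as in `N_{K/ℚ}(u) = f(x) N_{L/ℚ}(v)²`: introduce the
variable `c = N_{L/ℚ}(v)`.
-/

set_option autoImplicit false

namespace Pool.Agent.Results.MP_42de19_nt.NormForms

open MvPolynomial Pool.Agent.TH729.SQ Pool.Agent.H581R2 Pool.Agent.J4H71.SC Pool.Agent.J4H71.PC
  Pool.Agent.J4H71.NF Topology

/-- Semialgebraic sets defined over `ℚ`: the finite unions of sets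
`{p = 0, q₁ > 0, …, q_k > 0}`, where `p` and the `qᵢ` are polynomials with rational
coefficients. -/
def Semialgebraic {ι : Type} (S : Set (ι → ℝ)) : Prop :=
  ∃ (m : ℕ) (P : Fin m → MvPolynomial ι ℚ) (G : Fin m → Finset (MvPolynomial ι ℚ)),
    S = {x : ι → ℝ | ∃ j : Fin m, (aeval x (P j) : ℝ) = 0 ∧ ∀ g ∈ G j, (0 : ℝ) < aeval x g}

/-- The closure of a set of rational points in the set of the real points. -/
def realClosure {ι : Type} (D : Set (ι → ℚ)) : Set (ι → ℝ) :=
  closure {x : ι → ℝ | ∃ z ∈ D, x = fun i => (z i : ℝ)}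

/-- The same `n`-th power class. -/
def SameClass (n : ℕ) (a b : ℚ) : Prop := ∃ r : ℚ, r ≠ 0 ∧ b = r ^ n * a

/-- The points of `N` at which all the functions `h r` have the same `n r`-th power classes as at
`z₀`. -/
def likePoint {κ R : Type} (n : R → ℕ) (h : R → MvPolynomial κ ℚ) (N : Set (κ → ℚ)) (z₀ : κ → ℚ) :
    Set (κ → ℚ) :=
  {z | z ∈ N ∧ ∀ r, SameClass (n r) (eval z₀ (h r)) (eval z (h r))}

/-- Admissible blocks. -/
def Admissible {κ R : Type} (n : R → ℕ) (h : R → MvPolynomial κ ℚ) (N : Set (κ → ℚ)) : Prop :=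
  ∃ (A : Type) (_ : Finite A) (N' : A → Set (κ → ℚ)) (W : A → Set (κ → ℝ)),
    N = ⋃ α, N' α ∧ ∀ α, Semialgebraic (W α) ∧ (∀ z ∈ N' α, (fun i => (z i : ℝ)) ∈ W α) ∧
      (∀ r, (∀ x ∈ W α, (aeval x (h r) : ℝ) ≠ 0) ∨ (∀ x ∈ W α, (aeval x (h r) : ℝ) = 0)) ∧
      ∀ z₀ ∈ N' α, ∀ x ∈ W α, x ∈ realClosure (likePoint n h (N' α) z₀) →
        realClosure (likePoint n h (N' α) z₀) ∈ 𝓝[W α] x

/-- `h_r(g(t) z) = χ_r(t) h_r(z)` for polynomials `χ_r`, and `g(t₀) = 1`. -/
def Invariant {m q : ℕ} {R : Type} (h : R → MvPolynomial (Fin m) ℚ)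
    (g : Fin m → Fin m → MvPolynomial (Fin q) ℚ) (t₀ : Fin q → ℚ) : Prop :=
  (∀ i j, eval t₀ (g i j) = if i = j then 1 else 0) ∧
  ∃ χ : R → MvPolynomial (Fin q) ℚ, ∀ r (t : Fin q → ℚ) (z : Fin m → ℚ),
    eval (fun i => ∑ j, eval t (g i j) * z j) (h r) = eval t (χ r) * eval z (h r)

/-- The rational points `z` with `h_r(z) ≠ 0` at which the derivative of `t ↦ g(t) z` at `t₀` is
surjective. -/
def openPoints {m q : ℕ} {R : Type} (h : R → MvPolynomial (Fin m) ℚ)
    (g : Fin m → Fin m → MvPolynomial (Fin q) ℚ) (t₀ : Fin q → ℚ) : Set (Fin m → ℚ) :=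
  {z | (∀ r, eval z (h r) ≠ 0) ∧ ∃ σ : Fin m → Fin q,
    (Matrix.of fun i j => ∑ c, eval t₀ (pderiv (σ j) (g i c)) * z c).det ≠ 0}

/-- The value of the monomial `a ∏ g_{i r} ^ {e_{i r}}`. -/
def monomial {ι : Type} [Fintype ι] {R : ι → Type} [∀ i, Fintype (R i)] (a : ℚ)
    (e : ∀ i, R i → ℕ) (g : ∀ i, R i → ℚ) : ℚ := a * ∏ i, ∏ r, g i r ^ e i r

/-- The sets `M` and tuples `H` of polynomials in (3). -/
def Fibre (s : ℕ) {p m : ℕ} (H : Fin p → MvPolynomial (Fin m) ℚ) (M : Set (Fin m → ℚ)) : Prop :=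
  (s = 2 ∧ M = Set.univ ∧ ∃ h : p = m, ∀ j, H j = X (Fin.cast h j) ^ 2) ∨
  (p = 1 ∧ s ≠ 0 ∧ ∃ k : Fin m → ℤ,
    (∀ (r : ℚ) (u : Fin m → ℚ), 0 < r → u ∈ M → (fun i => r ^ k i * u i) ∈ M) ∧
    ∀ j, (∀ (r : ℚ) (u : Fin m → ℚ), 0 < r →
      eval (fun i => r ^ k i * u i) (H j) = r ^ s * eval u (H j)) ∧
      Admissible (fun _ : Unit => s) (fun _ => H j) M)

/-- The rational points `(z, u)` as in (3); `w (inl ⟨i, ·⟩)` is `z_i`, and `w (inr ⟨l, ·⟩)` is
`u_l`. The coefficient `c_{l 0}` has the index `none`. -/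
def points {ι Λ : Type} {κ R : ι → Type} {p m : Λ → ℕ} [Fintype ι] [∀ i, Fintype (R i)]
    (h : ∀ i, R i → MvPolynomial (κ i) ℚ) (N : ∀ i, Set (κ i → ℚ))
    (T : Set (∀ i, R i → ℚ)) (a : ∀ l, Option (Fin (p l)) → ℚ)
    (e : ∀ l, Option (Fin (p l)) → ∀ i, R i → ℕ)
    (H : ∀ l, Fin (p l) → MvPolynomial (Fin (m l)) ℚ) (M : ∀ l, Set (Fin (m l) → ℚ)) :
    Set ((Σ i, κ i) ⊕ (Σ l, Fin (m l)) → ℚ) :=
  {w | (∀ i, (fun c => w (Sum.inl ⟨i, c⟩)) ∈ N i) ∧
    (fun i r => eval (fun c => w (Sum.inl ⟨i, c⟩)) (h i r)) ∈ T ∧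
    ∀ l, (fun c => w (Sum.inr ⟨l, c⟩)) ∈ M l ∧
      monomial (a l none) (e l none) (fun i r => eval (fun c => w (Sum.inl ⟨i, c⟩)) (h i r)) +
      ∑ j, monomial (a l (some j)) (e l (some j))
        (fun i r => eval (fun c => w (Sum.inl ⟨i, c⟩)) (h i r)) *
          eval (fun c => w (Sum.inr ⟨l, c⟩)) (H l j) = 0}

/-- The linear form `a x + b`. -/
noncomputable def linear (a b : ℚ) : Polynomial ℚ := Polynomial.C a * Polynomial.X + Polynomial.C b

/-- The linear forms `a_i x + b_i` are pairwise independent. -/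
def Independent {r : ℕ} (a b : Fin r → ℚ) : Prop := ∀ i j, i ≠ j → a i * b j - b i * a j ≠ 0

/-- The systems of pairs of an exponent and a polynomial, as in `PowerClasses`. -/
def System (S : Set (ℕ × Polynomial ℚ)) : Prop :=
  (∃ (n : ℕ) (a b : Fin 2 → ℚ), n ≠ 0 ∧ Independent a b ∧
    S = {(n, linear (a 0) (b 0) * linear (a 1) (b 1) ^ (n - 1))}) ∨
  (∃ F : Polynomial ℚ, F.Separable ∧ F.natDegree ≤ 4 ∧
    S = {x | x.1 = 2 ∧ x.2 ∣ F ∧ (F.natDegree ≤ 3 ∨ Even x.2.natDegree)}) ∨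
  (∃ F : Polynomial ℚ, F.Separable ∧ (F.natDegree = 2 ∨ F.natDegree = 3) ∧ S = {(3, F)}) ∨
  (∃ a b : Fin 3 → ℚ, Independent a b ∧
    S = {(3, linear (a 0) (b 0) * linear (a 2) (b 2) ^ 2),
      (3, linear (a 1) (b 1) * linear (a 2) (b 2) ^ 2)}) ∨
  (∃ q₀ q₁ q₂ a b : ℚ, q₁ ^ 2 - 4 * q₀ * q₂ ≠ 0 ∧ q₂ * b ^ 2 - q₁ * a * b + q₀ * a ^ 2 ≠ 0 ∧
    S = {(4, (Polynomial.C q₂ * Polynomial.X ^ 2 + Polynomial.C q₁ * Polynomial.X +
      Polynomial.C q₀) * linear a b ^ 2)}) ∨
  (∃ a b : Fin 3 → ℚ, Independent a b ∧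
    S = {(4, linear (a 0) (b 0) * linear (a 1) (b 1) * linear (a 2) (b 2) ^ 2),
      (2, linear (a 0) (b 0) * linear (a 2) (b 2))}) ∨
  (∃ a b : Fin 3 → ℚ, Independent a b ∧
    S = {(6, linear (a 0) (b 0) * linear (a 1) (b 1) ^ 2 * linear (a 2) (b 2) ^ 3)})

/-- The polynomial `p` is generated by the system `S` with the exponent `s`:
`p = c (g / g₁)^s ∏_j F_j^{e_j}` with `(n_j, F_j) ∈ S` and `s ∣ n_j e_j`. The constant `c` and the
polynomials `g`, `g₁ ≠ 0` are arbitrary. -/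
def Generated (S : Set (ℕ × Polynomial ℚ)) (s : ℕ) (p : Polynomial ℚ) : Prop :=
  ∃ (m : ℕ) (f : Fin m → ℕ × Polynomial ℚ) (e : Fin m → ℕ) (c : ℚ) (g g₁ : Polynomial ℚ),
    g₁ ≠ 0 ∧ (∀ j, f j ∈ S ∧ s ∣ (f j).1 * e j) ∧
    p * g₁ ^ s = Polynomial.C c * g ^ s * ∏ j, (f j).2 ^ e j

/-- Sums of squares `u_j²` with coefficients (`s = 2`), or a power, of degree `s`, of the norm form
of a number field. -/
def SquaresOrNorm (s : ℕ) {p m : ℕ} (H : Fin p → MvPolynomial (Fin m) ℚ) : Prop :=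
  (s = 2 ∧ ∃ h : p = m, ∀ j, H j = X (Fin.cast h j) ^ 2) ∨
  (p = 1 ∧ ∃ (K : Type) (_ : Field K) (_ : Algebra ℚ K) (b : Module.Basis (Fin m) ℚ K) (e : ℕ),
    e ≠ 0 ∧ s = m * e ∧ ∀ j (u : Fin m → ℚ), eval u (H j) = Algebra.norm ℚ (∑ k, u k • b k) ^ e)

/-- The rational points of the affine variety
`A_{l 0}(x) + ∑_j A_{l j}(x) H_{l j}(u_l) = 0`, `l = 1, …, k`, where
`A_{l 0}(x) = ∏_i A l none i (x_i)` and `A_{l j}(x) = ∏_i A l (some j) i (x_i)`. The coordinate
`w (inl i)` is `x_i`, and `w (inr ⟨l, ·⟩)` is `u_l`. -/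
def variety {n k : ℕ} {p m : Fin k → ℕ} (H : ∀ l, Fin (p l) → MvPolynomial (Fin (m l)) ℚ)
    (A : ∀ l : Fin k, Option (Fin (p l)) → Fin n → Polynomial ℚ) :
    Set ((Fin n ⊕ Σ l, Fin (m l)) → ℚ) :=
  {w | ∀ l, (∏ i, (A l none i).eval (w (Sum.inl i))) +
    ∑ j, (∏ i, (A l (some j) i).eval (w (Sum.inl i))) *
      eval (fun c => w (Sum.inr ⟨l, c⟩)) (H l j) = 0}

lemma admissible_iff {κ R : Type} [Finite κ] (n : R → ℕ) (h : R → MvPolynomial κ ℚ)
    (N : Set (κ → ℚ)) : Admissible n h N ↔ Adm n h N := by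
  constructor
  · rintro ⟨A, hA, N', W, hN, hW⟩
    exact ⟨A, hA, N', W, hN, fun α => ⟨SA.of_classical (hW α).1, (hW α).2.1, (hW α).2.2.1,
      (hW α).2.2.2⟩⟩
  · rintro ⟨A, hA, N', W, hN, hW⟩
    exact ⟨A, hA, N', W, hN, fun α => ⟨SA.classical (hW α).sa, (hW α).sub, (hW α).sign,
      (hW α).opn⟩⟩

lemma system_lgs {S : Set (ℕ × Polynomial ℚ)} (h : System S) : LGS S := by
  rcases h with ⟨n, a, b, hn, hab, rfl⟩ | ⟨F, hF, hd, rfl⟩ | ⟨F, hF, hd, rfl⟩ | ⟨a, b, hab, rfl⟩ |
    ⟨q₀, q₁, q₂, a, b, h1, h2, rfl⟩ | ⟨a, b, hab, rfl⟩ | ⟨a, b, hab, rfl⟩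
  · exact lgs_zero hn (hab 0 1 (by decide))
  · exact lgs_two hF hd
  · exact lgs_three hF hd
  · exact lgs_three_split (hab 0 1 (by decide)) (hab 0 2 (by decide)) (hab 1 2 (by decide))
  · exact lgs_four h1 h2
  · exact lgs_four_split (hab 0 1 (by decide)) (hab 0 2 (by decide)) (hab 1 2 (by decide))
  · exact lgs_six (hab 0 1 (by decide)) (hab 0 2 (by decide)) (hab 1 2 (by decide))

lemma openPoints_eq {m q : ℕ} {R : Type} (h : R → MvPolynomial (Fin m) ℚ)
    (g : Fin m → Fin m → MvPolynomial (Fin q) ℚ) (t₀ : Fin q → ℚ) :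
    openPoints h g t₀ = NN h g t₀ := by
  ext z
  refine and_congr Iff.rfl (exists_congr fun σ => not_congr ?_)
  have e : (Matrix.of fun i j => ∑ c,
      ((eval t₀ (pderiv (σ j) (g i c)) : ℚ) : ℝ) * ((z c : ℚ) : ℝ)) =
      (Rat.castHom ℝ).mapMatrix
        (Matrix.of fun i j => ∑ c, eval t₀ (pderiv (σ j) (g i c)) * z c) := by
    ext i j
    simp
  rw [e, ← RingHom.map_det]
  simp

lemma fib_fibre {s p m : ℕ} {H : Fin p → MvPolynomial (Fin m) ℚ} {M : Set (Fin m → ℚ)}
    (h : Fibre s H M) : ∃ Sh, Fib s (PhiG H M) Sh := by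
  rcases h with ⟨rfl, rfl, rfl, hH⟩ | ⟨rfl, hs, k, hM, hH⟩
  · obtain rfl : H = fun j => X j ^ 2 := funext fun j => by simpa using hH j
    exact fib_diag
  · exact fib_one hs (hH 0).1 hM ((admissible_iff _ _ _).1 (hH 0).2)

lemma fib_norms {s p m : ℕ} {H : Fin p → MvPolynomial (Fin m) ℚ}
    (h : SquaresOrNorm s H) : ∃ Sh, Fib s (PhiG H Set.univ) Sh := by
  rcases h with ⟨rfl, rfl, hH⟩ | ⟨hp, K, _, _, b, e, he, rfl, hH⟩
  · obtain rfl : H = fun j => X j ^ 2 := funext fun j => by simpa using hH j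
    exact fib_diag
  · refine fib_norm hp b he fun j => MvPolynomial.funext fun u => ?_
    rw [hH, map_pow, normPoly_eval]
    rfl

/-- **Norm forms.** -/
theorem result :
    -- (1) relative invariants
    (∀ (m q : ℕ) (R : Type) [Finite R] (n : R → ℕ) (h : R → MvPolynomial (Fin m) ℚ)
      (g : Fin m → Fin m → MvPolynomial (Fin q) ℚ) (t₀ : Fin q → ℚ), Invariant h g t₀ →
      (∀ r, n r ≠ 0) → Admissible n h (openPoints h g t₀)) ∧
    -- (2) norm forms
    (∀ (m : ℕ) (K : Type) [Field K] [Algebra ℚ K] (b : Module.Basis (Fin m) ℚ K)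
      (R : Type) [Finite R] (n e : R → ℕ) (H : R → MvPolynomial (Fin m) ℚ),
      (∀ r, n r ≠ 0) → (∀ r, e r ≠ 0) →
      (∀ r (u : Fin m → ℚ), eval u (H r) = Algebra.norm ℚ (∑ k, u k • b k) ^ e r) →
      Admissible n H Set.univ) ∧
    -- (3) the principle
    (∀ (ι Λ : Type) [Fintype ι] [Fintype Λ] (κ R : ι → Type) (p m : Λ → ℕ)
      [∀ i, Fintype (κ i)] [∀ i, Fintype (R i)] (n : ∀ i, R i → ℕ)
      (h : ∀ i, R i → MvPolynomial (κ i) ℚ) (N : ∀ i, Set (κ i → ℚ)),
      (∀ i, Admissible (n i) (h i) (N i)) →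
      ∀ T : Set (∀ i, R i → ℚ),
        (∀ g ∈ T, ∀ g', (∀ i r, SameClass (n i r) (g i r) (g' i r)) → g' ∈ T) →
      ∀ (s : Λ → ℕ) (a : ∀ l, Option (Fin (p l)) → ℚ)
        (e : ∀ l, Option (Fin (p l)) → ∀ i, R i → ℕ)
        (H : ∀ l, Fin (p l) → MvPolynomial (Fin (m l)) ℚ) (M : ∀ l, Set (Fin (m l) → ℚ)),
        (∀ l, Fibre (s l) (H l) (M l)) → (∀ l j i r, s l ∣ n i r * e l j i r) →
        Semialgebraic (realClosure (points h N T a e H M))) ∧
    -- (4) all rational points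
    (∀ (n k : ℕ) (p m : Fin k → ℕ) (s : Fin k → ℕ) (S : Fin n → Set (ℕ × Polynomial ℚ))
      (H : ∀ l, Fin (p l) → MvPolynomial (Fin (m l)) ℚ)
      (A : ∀ l : Fin k, Option (Fin (p l)) → Fin n → Polynomial ℚ),
      (∀ l, SquaresOrNorm (s l) (H l)) → (∀ i, System (S i)) →
      (∀ l j i, Generated (S i) (s l) (A l j i)) → Semialgebraic (realClosure (variety H A))) ∧
    -- (5) values of rational functions
    (∀ (n k : ℕ) (p m : Fin k → ℕ) (s : Fin k → ℕ) (S : Fin n → Set (ℕ × Polynomial ℚ))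
      (H : ∀ l, Fin (p l) → MvPolynomial (Fin (m l)) ℚ)
      (A : ∀ l : Fin k, Option (Fin (p l)) → Fin n → Polynomial ℚ),
      (∀ l, SquaresOrNorm (s l) (H l)) → (∀ i, System (S i)) →
      (∀ l j i, Generated (S i) (s l) (A l j i)) →
      ∀ (r : ℕ) (P : Fin r → MvPolynomial (Fin n ⊕ Σ l, Fin (m l)) ℚ)
        (Q : MvPolynomial (Fin n ⊕ Σ l, Fin (m l)) ℚ),
        Semialgebraic (closure {y : Fin r → ℝ | ∃ w ∈ variety H A, eval w Q ≠ 0 ∧
          ∀ c, y c = ((eval w (P c) / eval w Q : ℚ) : ℝ)})) := by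
  have key : ∀ (n k : ℕ) (p m : Fin k → ℕ) (s : Fin k → ℕ) (S : Fin n → Set (ℕ × Polynomial ℚ))
      (H : ∀ l, Fin (p l) → MvPolynomial (Fin (m l)) ℚ)
      (A : ∀ l : Fin k, Option (Fin (p l)) → Fin n → Polynomial ℚ),
      (∀ l, SquaresOrNorm (s l) (H l)) → (∀ i, System (S i)) →
      (∀ l j i, Generated (S i) (s l) (A l j i)) → SA (closure (rl (variety H A))) := by
    intro n k p m s S H A hH hS hA
    exact VarG_SA (fun l => fib_norms (hH l)) A
      fun i => (system_lgs (hS i)).over fun r => hA r.1 r.2 i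
  refine ⟨?_, ?_, ?_, ?_, ?_⟩
  · rintro m q R _ n h g t₀ ⟨h1, χ, h2⟩ hn
    rw [admissible_iff, openPoints_eq]
    exact ⟨Unit, inferInstance, fun _ => _, fun _ => _, (Set.iUnion_const _).symm,
      fun _ => fam_piece ⟨h1, h2⟩ hn⟩
  · intro m K _ _ b R _ n e H hn he hH
    rw [admissible_iff]
    have : H = fun r => normPoly b ^ e r := funext fun r => MvPolynomial.funext fun u => by
      rw [hH, map_pow, normPoly_eval]
      rfl
    rw [this]
    exact norm_adm b hn he
  · intro ι Λ _ _ κ R p m _ _ n h N hN T hT s a e H M hH hd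
    choose Sh hSh using fun l => fib_fibre (hH l)
    exact SA.classical (Tot_SA (ν := fun l => Option (Fin (p l))) (μ := fun l => Fin (m l))
      (fun i => (admissible_iff _ _ _).1 (hN i)) hT a e hd hSh)
  · intro n k p m s S H A hH hS hA
    exact SA.classical (key n k p m s S H A hH hS hA)
  · intro n k p m s S H A hH hS hA r P Q
    exact SA.classical (values_var (key n k p m s S H A hH hS hA) P Q)

end Pool.Agent.Results.MP_42de19_nt.NormForms
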